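import Pool.Agent.P.MP_e1e3b8_co.Poly

namespace Pool.Agent.Results.MP_e1e3b8_co.Decagon

open Matrix

/-- A simple closed polygon with ten sides that has no inscribed affinely regular hexagon. -/
theorem result :
    ∃ (w : Fin 10 → Fin 2 → ℝ) (J : Set (Fin 2 → ℝ)),
      J = ⋃ i : Fin 10, segment ℝ (w i) (w (i + 1)) ∧ Nonempty (J ≃ₜ Circle) ∧
      ¬ ∃ (M : Matrix (Fin 2) (Fin 2) ℝ) (b : Fin 2 → ℝ), M.det ≠ 0 ∧ ∀ k : Fin 6,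
        M *ᵥ ![Real.cos ((k : ℕ) * Real.pi / 3), Real.sin ((k : ℕ) * Real.pi / 3)] + b ∈ J :=
  ⟨Pool.Agent.P.MP_e1e3b8_co.vert, _, rfl, Pool.Agent.P.MP_e1e3b8_co.poly_jordan,
    fun ⟨M, b, hM, h⟩ => Pool.Agent.P.MP_e1e3b8_co.poly_no_hex M b hM h⟩

end Pool.Agent.Results.MP_e1e3b8_co.Decagon
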