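import Pool.Agent.P.MP_e1e3b8_co.R.Ray

/-! A compact plane set that encloses a point and meets every ray from it within a ratio
below two contains the vertices of an affinely regular hexagon. -/

namespace Pool.Agent.Results.MP_e1e3b8_co.RayRatio

open Matrix

theorem result (J : Set (Fin 2 → ℝ)) (o : Fin 2 → ℝ) (hJ : IsCompact J) (ho : o ∉ J)
    (hb : Bornology.IsBounded (connectedComponentIn Jᶜ o))
    (hr : ∀ x ∈ J, ∀ t : ℝ, 2 ≤ t → o + t • (x - o) ∉ J) :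
    ∃ (M : Matrix (Fin 2) (Fin 2) ℝ) (b : Fin 2 → ℝ), M.det ≠ 0 ∧ ∀ k : Fin 6,
      M *ᵥ ![Real.cos ((k : ℕ) * Real.pi / 3), Real.sin ((k : ℕ) * Real.pi / 3)] + b ∈ J :=
  Pool.Agent.P.MP_e1e3b8_co.R.ray hJ ho hb hr

end Pool.Agent.Results.MP_e1e3b8_co.RayRatio
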