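import Pool.Agent.P.MP_e1e3b8_co.G.Final

/-! A Jordan curve that is the union of the graphs of two continuous functions contains six
distinct points, in cyclic order, that form an affine image of the regular hexagon; the affine map
is invertible when a convex or concave function separates the two graphs. -/

namespace Pool.Agent.Results.MP_e1e3b8_co.TwoGraphs

open Matrix

theorem result (a b : ℝ) (f g : ℝ → ℝ) (hab : a < b) (hf : ContinuousOn f (Set.Icc a b))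
    (hg : ContinuousOn g (Set.Icc a b)) (ha : f a = g a) (hb : f b = g b)
    (hfg : ∀ x ∈ Set.Ioo a b, f x < g x) :
    ∃ (M : Matrix (Fin 2) (Fin 2) ℝ) (o : Fin 2 → ℝ) (P : Fin 6 → Fin 2 → ℝ),
      (∀ k : Fin 6, P k =
        M *ᵥ ![Real.cos ((k : ℕ) * Real.pi / 3), Real.sin ((k : ℕ) * Real.pi / 3)] + o) ∧
      Function.Injective P ∧
      (∀ k, P k 0 ∈ Set.Icc a b ∧ (P k 1 = f (P k 0) ∨ P k 1 = g (P k 0))) ∧
      (P 1 1 = g (P 1 0) ∧ P 2 1 = g (P 2 0) ∧ P 4 1 = f (P 4 0) ∧ P 5 1 = f (P 5 0)) ∧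
      ((∀ k, P 3 0 ≤ P k 0 ∧ P k 0 ≤ P 0 0) ∧ P 2 0 < P 1 0 ∧ P 4 0 < P 5 0) ∧
      ∀ h : ℝ → ℝ, ConvexOn ℝ (Set.Ioo a b) h ∨ ConcaveOn ℝ (Set.Ioo a b) h →
        (∀ x ∈ Set.Ioo a b, f x ≤ h x ∧ h x < g x) ∨ (∀ x ∈ Set.Ioo a b, f x < h x ∧ h x ≤ g x) →
        M.det ≠ 0 :=
  Pool.Agent.P.MP_e1e3b8_co.G.twoGraphs hab hf hg ha hb hfg

end Pool.Agent.Results.MP_e1e3b8_co.TwoGraphs
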